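import Pool.Agent.Mg.F6c6e33.G7132dd

/-! A recurrence argument and a growth argument in the plane lattice. -/

open Finset Filter Function

namespace Pool.Agent.MP_6c6e33_an.Wt

/-- the maximum norm on the lattice -/
def nn (l : ℤ × ℤ) : ℕ := max l.1.natAbs l.2.natAbs

theorem nn_tri (l m o : ℤ × ℤ) : nn (m - o) ≤ nn (l - o) + nn (l - m) := by
  simp only [nn, Prod.fst_sub, Prod.snd_sub]
  omega

/-- harmonic numbers -/
noncomputable def Hn (n : ℕ) : ℝ := ∑ i ∈ range n, 1 / ((i : ℝ) + 1)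

theorem Hn_add (x k : ℕ) : 0 ≤ Hn (x + k) - Hn x ∧ Hn (x + k) - Hn x ≤ k / (1 + x) := by
  induction k with
  | zero => simp
  | succ k ih =>
    have e : Hn (x + (k + 1)) = Hn (x + k) + 1 / (((x + k : ℕ) : ℝ) + 1) := sum_range_succ _ _
    have h : 1 / (((x + k : ℕ) : ℝ) + 1) ≤ 1 / (1 + x) :=
      one_div_le_one_div_of_le (by positivity) (by push_cast; linarith [k.cast_nonneg (α := ℝ)])
    have h0 : 0 ≤ 1 / (((x + k : ℕ) : ℝ) + 1) := by positivity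
    rw [e, Nat.cast_succ, add_div]
    constructor <;> linarith [ih.1, ih.2]

theorem box_sum (R : ℕ) : ∃ B : Finset (ℤ × ℤ), (∀ l, l ∈ B ↔ nn l ≤ R) ∧
    ∑ l ∈ B, 1 / (1 + (nn l : ℝ)) ^ 2 ≤ 8 * (Hn R + 1) := by
  have hb : ∀ n l, l ∈ (box n : Finset (ℤ × ℤ)) ↔ nn l = n := fun n l => Int.mem_box
  induction R with
  | zero =>
    refine ⟨box 0, fun l => by rw [hb, Nat.le_zero], ?_⟩
    simp [box, nn, Hn]
  | succ R ih =>
    obtain ⟨B, h1, h2⟩ := ih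
    refine ⟨B ∪ box (R + 1), fun l => by rw [mem_union, h1, hb]; omega, ?_⟩
    rw [sum_union (disjoint_left.2 fun l a b => by rw [h1] at a; rw [hb] at b; omega),
      sum_congr rfl (g := fun _ => 1 / (1 + ((R + 1 : ℕ) : ℝ)) ^ 2) (s₁ := box (R + 1))
        fun l hl => by rw [(hb _ l).1 hl], sum_const, Int.card_box (Nat.succ_ne_zero R),
      show Hn (R + 1) = Hn R + 1 / ((R : ℝ) + 1) from sum_range_succ _ _, nsmul_eq_mul]
    have : ((8 * (R + 1) : ℕ) : ℝ) * (1 / (1 + ((R + 1 : ℕ) : ℝ)) ^ 2) ≤ 8 * (1 / ((R : ℝ) + 1)) := by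
      push_cast
      rw [mul_one_div, mul_one_div, div_le_div_iff₀ (by positivity) (by positivity)]
      nlinarith [R.cast_nonneg (α := ℝ)]
    linarith

/-- logarithmic cutoff functions have small energy -/
theorem cut (κ : ℤ × ℤ → ℝ) (k0 : ∀ l, 0 ≤ κ l) (hk : Summable fun l => (nn l : ℝ) ^ 2 * κ l)
    (o : ℤ × ℤ) (ε : ℝ) (ε0 : 0 < ε) : ∃ (φ : ℤ × ℤ → ℝ) (B : Finset (ℤ × ℤ)), φ o = 1 ∧
      (∀ l ∉ B, φ l = 0) ∧ (∀ l, |φ l| ≤ 1) ∧
      ∀ I J : Finset (ℤ × ℤ), ∑ m ∈ I, ∑ l ∈ J, (φ l - φ m) ^ 2 * κ (l - m) ≤ ε := by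
  obtain ⟨D, hD⟩ := hk
  have q0 : ∀ l, 0 ≤ (nn l : ℝ) ^ 2 * κ l := fun l => mul_nonneg (sq_nonneg _) (k0 l)
  have D0 : 0 ≤ D := hD.nonneg q0
  obtain ⟨R, H1, H2⟩ := ((Real.tendsto_sum_range_one_div_nat_succ_atTop.eventually_ge_atTop 1).and
    (Real.tendsto_sum_range_one_div_nat_succ_atTop.eventually_ge_atTop (32 * D / ε))).exists
  change 1 ≤ Hn R at H1
  change _ ≤ Hn R at H2
  have H0 : 0 < Hn R := by linarith
  obtain ⟨B₀, b1, b2⟩ := box_sum R
  obtain ⟨B, c1, c2⟩ : ∃ B : Finset (ℤ × ℤ), (∀ l, l ∈ B ↔ nn (l - o) ≤ R) ∧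
      ∑ l ∈ B, 1 / (1 + (nn (l - o) : ℝ)) ^ 2 ≤ 8 * (Hn R + 1) :=
    ⟨B₀.map (Equiv.addRight o).toEmbedding, fun l => by
      rw [mem_map_equiv, b1]; simp [sub_eq_add_neg], by simpa using b2⟩
  obtain ⟨φ, hφ⟩ : ∃ φ : ℤ × ℤ → ℝ, ∀ l, φ l = max (1 - Hn (nn (l - o)) / Hn R) 0 := ⟨_, fun _ => rfl⟩
  obtain ⟨e, he⟩ : ∃ e : ℤ × ℤ → ℝ, ∀ l, e l =
    if l ∈ B then 1 / Hn R ^ 2 * (1 / (1 + (nn (l - o) : ℝ)) ^ 2) else 0 := ⟨_, fun _ => rfl⟩
  have e0 : ∀ l, 0 ≤ e l := fun l => by rw [he]; positivity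
  have f1 : ∀ m ∉ B, φ m = 0 := fun m hm => by
    obtain ⟨k, hk⟩ := Nat.exists_eq_add_of_le (not_le.1 fun h => hm ((c1 m).2 h)).le
    rw [hφ, hk, max_eq_right]
    rw [sub_nonpos, one_le_div H0]
    linarith [(Hn_add R k).1]
  have f2 : ∀ l m, nn (l - o) ≤ nn (m - o) → (φ l - φ m) ^ 2 ≤ e l * (nn (l - m) : ℝ) ^ 2 :=
    fun l m h => by
    by_cases hl : l ∈ B
    swap
    · rw [f1 l hl, f1 m fun hm => hl ((c1 l).2 (h.trans ((c1 m).1 hm))), he, if_neg hl]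
      simp
    obtain ⟨k, hk⟩ := Nat.exists_eq_add_of_le h
    have k1 : (k : ℝ) ≤ nn (l - m) := by exact_mod_cast (by have := nn_tri l m o; omega)
    obtain ⟨t0, t1⟩ := Hn_add (nn (l - o)) k
    have t2 : |φ l - φ m| ≤ 1 / Hn R * (nn (l - m) / (1 + (nn (l - o) : ℝ))) := by
      rw [hφ, hφ, hk]
      refine (abs_max_sub_max_le_abs _ _ _).trans ?_
      rw [sub_sub_sub_cancel_left, ← sub_div, abs_of_nonneg (by positivity), mul_comm, mul_one_div]
      gcongr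
      exact t1.trans (by gcongr)
    rw [← sq_abs]
    refine (pow_le_pow_left₀ (abs_nonneg _) t2 2).trans (le_of_eq ?_)
    rw [he, if_pos hl]
    field_simp
  have f3 : ∀ l m, (φ l - φ m) ^ 2 ≤ (e l + e m) * (nn (l - m) : ℝ) ^ 2 := fun l m => by
    have s : nn (m - l) = nn (l - m) := by
      simp only [nn, Prod.fst_sub, Prod.snd_sub]
      omega
    rcases le_total (nn (l - o)) (nn (m - o)) with h | h
    · nlinarith [f2 l m h, mul_nonneg (e0 m) (sq_nonneg (nn (l - m) : ℝ))]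
    · nlinarith [s ▸ f2 m l h, mul_nonneg (e0 l) (sq_nonneg (nn (l - m) : ℝ))]
  have f4 : ∀ J : Finset (ℤ × ℤ), ∑ l ∈ J, e l * D ≤ ε / 2 := fun J => by
    simp only [he, ← sum_mul, sum_ite_mem, ← mul_sum]
    rw [div_le_iff₀ ε0] at H2
    calc _ ≤ 1 / Hn R ^ 2 * (16 * Hn R) * D := by
          gcongr
          exact ((sum_le_sum_of_subset_of_nonneg inter_subset_right fun _ _ _ => by
            positivity).trans c2).trans (by linarith)
      _ = 16 * D / Hn R := by field_simp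
      _ ≤ _ := by rw [div_le_iff₀ H0]; linarith
  refine ⟨φ, B, by simp [hφ, nn, Hn], f1, fun l => ?_, fun I J => ?_⟩
  · have := (Hn_add 0 (nn (l - o))).1
    simp only [Hn, range_zero, sum_empty, sub_zero, zero_add] at this
    rw [hφ, abs_of_nonneg (le_max_right _ _)]
    exact max_le (sub_le_self _ (div_nonneg this H0.le)) zero_le_one
  calc _ ≤ ∑ m ∈ I, ∑ l ∈ J, (e l * ((nn (l - m) : ℝ) ^ 2 * κ (l - m)) +
        e m * ((nn (l - m) : ℝ) ^ 2 * κ (l - m))) := sum_le_sum fun m _ => sum_le_sum fun l _ =>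
        (mul_le_mul_of_nonneg_right (f3 l m) (k0 _)).trans_eq (by ring)
    _ ≤ ∑ l ∈ J, e l * D + ∑ m ∈ I, e m * D := by
        simp only [sum_add_distrib]
        rw [sum_comm]
        simp only [← mul_sum]
        gcongr with l _ m _
        exacts [e0 l, sum_le_hasSum I (fun _ _ => q0 _) ((Equiv.subLeft l).hasSum_iff.2 hD), e0 m,
          sum_le_hasSum J (fun _ _ => q0 _) ((Equiv.subRight m).hasSum_iff.2 hD)]
    _ ≤ _ := by linarith [f4 I, f4 J]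

/-- a bounded subharmonic function of a recurrent symmetric kernel is harmonic -/
theorem picone {ι : Type} (μ : ι → ι → ℝ) (b N : ι → ℝ) (p M : ℝ) (K0 : ∀ l m, 0 ≤ μ l m)
    (Ks : ∀ l m, μ l m = μ m l) (hs : ∀ l, HasSum (μ l) p) (bM : ∀ l, b l < M)
    (hN : ∀ l, HasSum (fun m => b m * μ l m) (N l)) (sub : ∀ l, b l * p ≤ N l) (o : ι)
    (hc : ∀ ε > 0, ∃ (φ : ι → ℝ) (B : Finset ι), φ o = 1 ∧ (∀ l ∉ B, φ l = 0) ∧
      ∀ I : Finset ι, ∑ m ∈ I, ∑ l ∈ I, (φ l - φ m) ^ 2 * μ l m ≤ ε) : N o ≤ b o * p := by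
  have h0 : ∀ l, 0 < M - b l := fun l => sub_pos.2 (bM l)
  refine sub_nonpos.1 (nonpos_of_mul_nonpos_right (le_of_forall_pos_le_add fun ε ε0 => ?_)
    (one_div_pos.2 (h0 o)))
  obtain ⟨φ, B, f0, f1, f2⟩ := hc ε ε0
  obtain ⟨t, ht⟩ : ∃ t : ι → ι → ℝ, ∀ l m, t l m = φ l ^ 2 / (M - b l) * ((b m - b l) * μ l m) :=
    ⟨_, fun _ _ => rfl⟩
  have t1 : ∀ l, HasSum (t l) (φ l ^ 2 / (M - b l) * (N l - b l * p)) := fun l =>
    (((hN l).sub ((hs l).mul_left (b l))).mul_left _).congr_fun fun m => by rw [ht]; ring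
  have t2 : ∀ l m, t l m + t m l ≤ (φ l - φ m) ^ 2 * μ l m := fun l m => by
    have a := h0 l
    have c := h0 m
    have : (φ l - φ m) ^ 2 * μ l m - (t l m + t m l) =
        (φ l * (M - b m) - φ m * (M - b l)) ^ 2 / ((M - b l) * (M - b m)) * μ l m := by
      rw [ht, ht, Ks m l]
      field_simp
      ring
    have := K0 l m
    rw [← sub_nonneg, ‹_ - _ = _›]
    positivity
  have t3 : ∑ l ∈ B, φ l ^ 2 / (M - b l) * (N l - b l * p) ≤ ε := by
    refine le_of_tendsto (hasSum_sum fun l _ => t1 l) ?_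
    filter_upwards [eventually_ge_atTop B] with I hI
    have e1 : ∑ m ∈ I, ∑ l ∈ B, t l m = ∑ m ∈ I, ∑ l ∈ I, t l m :=
      sum_congr rfl fun m _ => sum_subset hI fun l _ hl => by simp [ht, f1 l hl]
    have e2 := (sum_le_sum fun m _ => sum_le_sum fun l _ => t2 l m).trans (f2 I)
    simp only [sum_add_distrib] at e2
    rw [sum_comm (f := fun m l => t m l)] at e2
    linarith
  have := single_le_sum (f := fun l => φ l ^ 2 / (M - b l) * (N l - b l * p))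
    (fun l _ => mul_nonneg (div_nonneg (sq_nonneg _) (h0 l).le) (sub_nonneg.2 (sub l)))
    (by_contra fun h => one_ne_zero (f0.symm.trans (f1 o h)))
  simp only [f0, one_pow] at this
  linarith

/-- at most `L` steps of `s` apart -/
def Dn {α : Type} (s : α → α) (L : ℕ) (x y : α) : Prop := ∃ n ≤ L, s^[n] x = y ∨ s^[n] y = x

theorem Dn.trans {α : Type} {s : α → α} (hs : Injective s) {L M : ℕ} {x y z : α}
    (h : Dn s L x y) (h' : Dn s M y z) : Dn s (L + M) x z := by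
  obtain ⟨n, hn, h⟩ := h
  obtain ⟨m, hm, h'⟩ := h'
  rcases h with rfl | rfl <;> rcases h' with h' | h'
  · exact ⟨m + n, by omega, .inl (by rw [iterate_add_apply, h'])⟩
  · rcases le_total n m with e | e
    · obtain ⟨k, rfl⟩ := Nat.exists_eq_add_of_le e
      rw [iterate_add_apply] at h'
      exact ⟨k, by omega, .inr (hs.iterate n h')⟩
    · obtain ⟨k, rfl⟩ := Nat.exists_eq_add_of_le e
      rw [iterate_add_apply] at h'
      exact ⟨k, by omega, .inl (hs.iterate m h').symm⟩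
  · subst h'
    rcases le_total n m with e | e
    · obtain ⟨k, rfl⟩ := Nat.exists_eq_add_of_le' e
      exact ⟨k, by omega, .inl (iterate_add_apply _ _ _ _).symm⟩
    · obtain ⟨k, rfl⟩ := Nat.exists_eq_add_of_le' e
      exact ⟨k, by omega, .inr (iterate_add_apply _ _ _ _).symm⟩
  · exact ⟨n + m, by omega, .inr (by rw [iterate_add_apply, h'])⟩

theorem bound {α : Type} (s : α → α) (Φ : Finset α)
    (hΦ : ∀ l, ∃ φ ∈ Φ, ∃ n, s^[n] φ = l ∨ s^[n] l = φ) (A : Finset α) :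
    ∃ L, ∀ l ∈ A, ∃ φ ∈ Φ, Dn s L φ l := by
  choose φ h1 n h2 using hΦ
  exact ⟨A.sup n, fun l hl => ⟨φ l, h1 l, n l, le_sup hl, h2 l⟩⟩

/-- an automorphism of a locally finite translation invariant graph has infinitely many orbits -/
theorem growthJ (s : ℤ × ℤ → ℤ × ℤ) (hs : Injective s) (Φ : Finset (ℤ × ℤ))
    (hΦ : ∀ l, ∃ φ ∈ Φ, ∃ n, s^[n] φ = l ∨ s^[n] l = φ) (S : Finset (ℤ × ℤ)) (v : ℤ × ℤ)
    (hv : v ≠ 0) (hvS : v ∈ S) (hS : ∀ l m, m - l ∈ S → s m - s l ∈ S) : False := by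
  have it : ∀ n l m, m - l ∈ S → s^[n] m - s^[n] l ∈ S := fun n => by
    induction n with
    | zero => exact fun _ _ h => h
    | succ n ih => exact fun l m h => ih _ _ (hS l m h)
  obtain ⟨M, hM⟩ := bound s Φ hΦ (image₂ (· + ·) Φ S)
  have st : ∀ L l, (∃ φ ∈ Φ, Dn s L φ l) → ∃ φ ∈ Φ, Dn s (M + L) φ (l + v) := by
    rintro L l ⟨φ, hφ, n, hn, h⟩
    obtain ⟨κ, hκ, e⟩ : ∃ κ ∈ S, Dn s L (φ + κ) (l + v) := by
      rcases h with rfl | rfl
      · obtain ⟨κ, hκ, e⟩ := surjOn_of_injOn_of_card_le (s := S) (t := S)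
          (fun κ => s^[n] (φ + κ) - s^[n] φ) (fun κ hκ => it n _ _ (by simpa using hκ))
          (fun κ _ κ' _ e => add_left_cancel (hs.iterate n (sub_left_injective e))) le_rfl hvS
        exact ⟨κ, hκ, n, hn, .inl (sub_eq_iff_eq_add'.1 e)⟩
      · exact ⟨_, it n l (l + v) (by simpa using hvS), n, hn, .inr (by simp)⟩
    obtain ⟨ψ, hψ, d⟩ := hM _ (mem_image₂_of_mem hφ hκ)
    exact ⟨ψ, hψ, d.trans hs e⟩
  obtain ⟨L, hL⟩ := bound s Φ hΦ ((range (2 * Φ.card * M + 1)).image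
    fun j : ℕ => (j : ℤ) • ((-v.2, v.1) : ℤ × ℤ))
  have st2 : ∀ j < 2 * Φ.card * M + 1, ∀ i : ℕ, ∃ φ ∈ Φ,
      Dn s (L + i * M) φ ((j : ℤ) • ((-v.2, v.1) : ℤ × ℤ) + (i : ℤ) • v) := fun j hj i => by
    induction i with
    | zero => simpa using hL _ (mem_image_of_mem _ (mem_range.2 hj))
    | succ i ih =>
      have := st _ _ ih
      rwa [add_assoc, ← add_one_zsmul, ← Nat.cast_succ,
        show M + (L + i * M) = L + (i + 1) * M by ring] at this
  obtain ⟨r, hr⟩ : ∃ r, r = 2 * Φ.card * (L + 1) + 1 := ⟨_, rfl⟩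
  have v0 : 0 < v.1 ^ 2 + v.2 ^ 2 := not_le.1 fun h =>
    hv (Prod.ext (by nlinarith [sq_nonneg v.2] : v.1 = 0) (by nlinarith [sq_nonneg v.1] : v.2 = 0))
  have := card_le_card_of_injOn (s := range (2 * Φ.card * M + 1) ×ˢ range r)
    (t := image₂ (fun φ n => s^[n] φ) Φ (range (L + r * M + 1)) ∪
      image₂ (fun φ n => invFun s^[n] φ) Φ (range (L + r * M + 1)))
    (fun x => (x.1 : ℤ) • ((-v.2, v.1) : ℤ × ℤ) + (x.2 : ℤ) • v)
    (fun x hx => by
      obtain ⟨x1, x2⟩ := mem_product.1 hx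
      obtain ⟨φ, hφ, n, hn, h⟩ := st2 x.1 (mem_range.1 x1) x.2
      have n1 : n ∈ range (L + r * M + 1) := mem_range.2 (Nat.lt_succ_of_le
        (hn.trans (Nat.add_le_add_left (Nat.mul_le_mul_right _ (mem_range.1 x2).le) _)))
      refine mem_coe.2 (mem_union.2 (h.imp (fun h => mem_image₂.2 ⟨φ, hφ, n, n1, h⟩)
        fun h => mem_image₂.2 ⟨φ, hφ, n, n1, ?_⟩))
      rw [← h]
      exact leftInverse_invFun (hs.iterate n) _)
    (fun x _ y _ e => by
      have e1 := congrArg Prod.fst e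
      have e2 := congrArg Prod.snd e
      simp only [Prod.fst_add, Prod.snd_add, Prod.smul_fst, Prod.smul_snd, smul_eq_mul] at e1 e2
      have a1 : ((x.1 : ℤ) - y.1) * (v.1 ^ 2 + v.2 ^ 2) = 0 := by
        linear_combination v.1 * e2 - v.2 * e1
      have a2 : ((x.2 : ℤ) - y.2) * (v.1 ^ 2 + v.2 ^ 2) = 0 := by
        linear_combination v.1 * e1 + v.2 * e2
      have b1 := (mul_eq_zero.1 a1).resolve_right v0.ne'
      have b2 := (mul_eq_zero.1 a2).resolve_right v0.ne'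
      exact Prod.ext (by omega) (by omega))
  have c := this.trans ((card_union_le _ _).trans
    (add_le_add (card_image₂_le _ _ _) (card_image₂_le _ _ _)))
  simp only [card_product, card_range] at c
  nlinarith

end Pool.Agent.MP_6c6e33_an.Wt
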