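import Pool.Agent.MP_6c6e33_an.Defs

/-! Weighted representations along a self-map of the index set. -/

namespace Pool.Agent.MP_6c6e33_an

/-- Finitely many orbits: every index is reached from, or reaches, a point of a finite set under
iteration of `s`. -/
def FinitelyManyOrbits {ι : Type} (s : ι → ι) : Prop :=
  ∃ Φ : Finset ι, ∀ l, ∃ φ ∈ Φ, ∃ n : ℕ, s^[n] φ = l ∨ s^[n] l = φ

/-- There is a bounded linear operator `T : span {f l} → H` with `T (f l) = c l • f (s l)`. -/
def HasWeightedRepresentation {ι H : Type} [NormedAddCommGroup H] [InnerProductSpace ℂ H]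
    (f : ι → H) (s : ι → ι) (c : ι → ℂ) : Prop :=
  ∃ T : Submodule.span ℂ (Set.range f) →L[ℂ] H,
    ∀ l : ι, T ⟨f l, Submodule.subset_span (Set.mem_range_self l)⟩ = c l • f (s l)

end Pool.Agent.MP_6c6e33_an
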