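import Pool.Agent.MP_6c6e33_an.Wt.A
import Pool.Agent.MP_6c6e33_an.Wt.Defs

/-! Comparison of energies and rigidity of weighted representations. -/

open Finset Filter Function Topology ContinuousLinearMap
open scoped InnerProductSpace

noncomputable section

namespace Pool.Agent.MP_6c6e33_an.Wt

/-- square summable sequences on the lattice -/
abbrev E2 : Type := lp (fun _ : ℤ × ℤ => ℂ) 2

theorem hsq (y : E2) : HasSum (fun l => ‖y l‖ ^ 2) (‖y‖ ^ 2) := by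
  simpa using lp.hasSum_norm (p := 2) (by norm_num) y

/-- Hilbert-Schmidt bound -/
def HS (A : E2 → E2) (c : ℝ) : Prop :=
  ∀ I : Finset (ℤ × ℤ), ∑ m ∈ I, ‖A (lp.single 2 m 1)‖ ^ 2 ≤ c

theorem HS.adj {A B : E2 → E2} {c : ℝ} (h : HS A c) (e : ∀ x y, ⟪A x, y⟫_ℂ = ⟪x, B y⟫_ℂ) :
    HS B c := fun I => by
  refine hasSum_le_of_sum_le (hasSum_sum fun l _ => hsq (B (lp.single 2 l 1))) fun J => ?_
  refine (sum_le_sum fun m _ => ?_).trans (h J)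
  refine le_of_eq_of_le (sum_congr rfl fun l _ => ?_)
    (sum_le_hasSum I (fun _ _ => sq_nonneg _) (hsq (A (lp.single 2 m 1))))
  have := congrArg norm (e (lp.single 2 m 1) (lp.single 2 l 1))
  rw [lp.inner_single_left, lp.inner_single_right] at this
  simpa using this.symm

theorem HS.mono {A B : E2 → E2} {c : ℝ} (h : HS A c) (N : E2 →L[ℂ] E2) (e : ∀ y, B y = N (A y)) :
    HS B (‖N‖ ^ 2 * c) := fun I => by
  refine le_trans ?_ (mul_le_mul_of_nonneg_left (h I) (sq_nonneg _))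
  rw [mul_sum]
  refine sum_le_sum fun m _ => ?_
  rw [e, ← mul_pow]
  exact pow_le_pow_left₀ (norm_nonneg _) (N.le_opNorm _) 2

theorem exW (ω : ℤ × ℤ → ℝ) (h : ∀ l, |ω l| ≤ 1) :
    ∃ W : E2 →L[ℂ] E2, (∀ y l, W y l = ω l * y l) ∧ ∀ x y, ⟪W x, y⟫_ℂ = ⟪x, W y⟫_ℂ := by
  obtain ⟨W, hW⟩ : ∃ W : E2 →L[ℂ] E2, ∀ y l, W y l = ω l * y l :=
    ⟨lp.mapCLM 2 (fun l => lsmul ℂ ℂ (ω l : ℂ)) zero_le_one fun l =>
      opNorm_le_bound _ zero_le_one fun x => by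
        rw [lsmul_apply, norm_smul, Complex.norm_real]
        exact mul_le_mul_of_nonneg_right (h l) (norm_nonneg _), fun _ _ => rfl⟩
  exact ⟨W, hW, fun x y => (lp.hasSum_inner (𝕜 := ℂ) (W x) y).unique
    ((lp.hasSum_inner (𝕜 := ℂ) x (W y)).congr_fun fun l => by
      simp only [hW, RCLike.inner_apply, map_mul, Complex.conj_ofReal]; ring)⟩

theorem comm (A W : E2 →L[ℂ] E2) (ω : ℤ × ℤ → ℝ) (hW : ∀ y l, W y l = ω l * y l) (m : ℤ × ℤ) :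
    HasSum (fun l => (ω l - ω m) ^ 2 * ‖A (lp.single 2 m 1) l‖ ^ 2)
      (‖W (A (lp.single 2 m 1)) - A (W (lp.single 2 m 1))‖ ^ 2) := by
  have : W (lp.single 2 m 1) = (ω m : ℂ) • lp.single 2 m 1 := lp.ext (funext fun l => by
    rw [hW, lp.coeFn_smul, Pi.smul_apply, lp.single_apply, Pi.single_apply]
    split_ifs with h <;> simp [h])
  refine (hsq _).congr_fun fun l => ?_
  rw [this, map_smul, lp.coeFn_sub, Pi.sub_apply, hW, lp.coeFn_smul, Pi.smul_apply, smul_eq_mul,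
    ← sub_mul, norm_mul, mul_pow, ← Complex.ofReal_sub, Complex.norm_real, Real.norm_eq_abs, sq_abs]

variable {H : Type} [NormedAddCommGroup H] [InnerProductSpace ℂ H] [CompleteSpace H]

theorem exC (u : ℤ × ℤ → H) (hu : IsParseval u) : ∃ C : H →L[ℂ] E2,
    (∀ x l, C x l = ⟪u l, x⟫_ℂ) ∧ (∀ x, ‖C x‖ = ‖x‖) ∧ ∀ x, adjoint C (C x) = x := by
  have h : ∀ x, HasSum (fun k => ‖⟪u k, x⟫_ℂ‖ ^ 2) (‖x‖ ^ 2) := fun x => by
    simpa only [norm_inner_symm x] using hu x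
  let C0 : H →ₗ[ℂ] E2 :=
    { toFun := fun x => ⟨fun k => ⟪u k, x⟫_ℂ, memℓp_gen (by simpa using (h x).summable)⟩
      map_add' := fun x y => by ext k; simp
      map_smul' := fun c x => by ext k; simp }
  have n : ∀ x, ‖C0 x‖ = ‖x‖ := fun x =>
    (pow_left_inj₀ (norm_nonneg _) (norm_nonneg _) two_ne_zero).1 ((hsq (C0 x)).unique (h x))
  exact ⟨C0.mkContinuous 1 fun x => by simp [n], fun _ _ => rfl, n, fun x =>
    congrArg (fun T : H →L[ℂ] H => T x) ((norm_map_iff_adjoint_comp_self _).1 n)⟩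

/-- the energy of the tight frame is controlled by the energy of the frame -/
theorem comp (u : ℤ × ℤ → H) (hu : IsParseval u) (R : H ≃L[ℂ] H) : ∃ K : ℝ, 0 < K ∧
    ∀ (φ : ℤ × ℤ → ℝ) (ε : ℝ), (∀ l, |φ l| ≤ 1) → (∀ I J : Finset (ℤ × ℤ),
      ∑ m ∈ I, ∑ l ∈ J, (φ l - φ m) ^ 2 * ‖⟪R (u l), R (u m)⟫_ℂ‖ ^ 2 ≤ ε) →
    ∀ I : Finset (ℤ × ℤ), ∑ m ∈ I, ∑ l ∈ I, (φ l - φ m) ^ 2 * ‖⟪u l, u m⟫_ℂ‖ ^ 2 ≤ K * ε := by
  obtain ⟨C, hC, -, CC⟩ := exC u hu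
  have C1 : ∀ m, adjoint C (lp.single 2 m 1) = u m := fun m => ext_inner_right ℂ fun x => by
    rw [adjoint_inner_left, lp.inner_single_left, hC]
    simp
  have RR : ∀ x, adjoint (R.symm : H →L[ℂ] H) (adjoint (R : H →L[ℂ] H) x) = x := fun x =>
    ext_inner_left ℂ fun y => by simp [adjoint_inner_right]
  obtain ⟨P, hP⟩ : ∃ P : E2 →L[ℂ] E2, ∀ y, P y = C (adjoint C y) := ⟨C ∘L adjoint C, fun _ => rfl⟩
  obtain ⟨Q, hQ⟩ : ∃ Q : E2 →L[ℂ] E2, ∀ y, Q y = y - P y := ⟨1 - P, fun _ => rfl⟩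
  obtain ⟨G, hG⟩ : ∃ G : E2 →L[ℂ] E2, ∀ y, G y = C (adjoint (R : H →L[ℂ] H) (R (adjoint C y))) :=
    ⟨C ∘L adjoint (R : H →L[ℂ] H) ∘L R ∘L adjoint C, fun _ => rfl⟩
  obtain ⟨N, hN⟩ : ∃ N : E2 →L[ℂ] E2, ∀ y, P y = N (G y) :=
    ⟨C ∘L R.symm ∘L adjoint (R.symm : H →L[ℂ] H) ∘L adjoint C, fun _ => by simp [hP, hG, CC, RR]⟩
  have sP : ∀ x y, ⟪P x, y⟫_ℂ = ⟪x, P y⟫_ℂ := fun x y => by
    rw [hP, hP, ← adjoint_inner_right, adjoint_inner_left]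
  have sQ : ∀ x y, ⟪Q x, y⟫_ℂ = ⟪x, Q y⟫_ℂ := fun x y => by
    rw [hQ, hQ, inner_sub_left, inner_sub_right, sP]
  have sG : ∀ x y, ⟪G x, y⟫_ℂ = ⟪x, G y⟫_ℂ := fun x y => by
    rw [hG, hG, ← adjoint_inner_right, adjoint_inner_left, ← adjoint_inner_left C,
      adjoint_inner_right]
    rfl
  have GQ : ∀ y, G (Q y) = 0 := fun y => by simp [hG, hQ, hP, CC]
  refine ⟨4 * (‖N‖ ^ 2 * ‖Q‖ ^ 2) + 1, by positivity, fun φ ε h1 h2 I => ?_⟩
  obtain ⟨W, hW, sW⟩ := exW φ h1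
  have a1 : HS (fun y => W (G y) - G (W y)) ε := fun I =>
    hasSum_le_of_sum_le (hasSum_sum fun m _ => comm G W φ hW m) fun J => by
      rw [sum_comm]
      simpa [hG, hC, C1, adjoint_inner_right] using h2 I J
  have a2 : HS (fun y => P (W (Q y))) _ :=
    ((a1.mono Q fun _ => rfl).adj (B := fun y => G (W (Q y))) fun x y => by
      rw [sQ, inner_sub_left, sW, sG, sG, GQ]; simp).mono N fun _ => hN _
  have a3 : HS (fun y => Q (W (P y))) _ := a2.adj fun x y => by rw [sP, sW, sQ]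
  have e0 : 0 ≤ ε := by simpa using h2 ∅ ∅
  calc _ ≤ ∑ m ∈ I, (2 * ‖Q (W (P (lp.single 2 m 1)))‖ ^ 2 + 2 * ‖P (W (Q (lp.single 2 m 1)))‖ ^ 2) :=
        sum_le_sum fun m _ => by
        have := sum_le_hasSum I (fun _ _ => by positivity) (comm P W φ hW m)
        rw [show ∀ y, W (P y) - P (W y) = Q (W (P y)) - P (W (Q y)) from
          fun y => by simp [hQ]] at this
        simp only [hP, hC, C1] at this ⊢
        refine this.trans ((pow_le_pow_left₀ (norm_nonneg _) (norm_sub_le _ _) 2).trans ?_)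
        rw [← mul_add]
        exact add_sq_le
    _ ≤ _ := by
        simp only [sum_add_distrib, ← mul_sum]
        nlinarith [a2 I, a3 I]

theorem rigid (u : ℤ × ℤ → H) (hu : IsParseval u) (p : ℝ) (n : ∀ l, ‖u l‖ ^ 2 = p)
    (hc : ∀ o, ∀ ε > 0, ∃ (φ : ℤ × ℤ → ℝ) (B : Finset (ℤ × ℤ)), φ o = 1 ∧ (∀ l ∉ B, φ l = 0) ∧
      ∀ I : Finset (ℤ × ℤ), ∑ m ∈ I, ∑ l ∈ I, (φ l - φ m) ^ 2 * ‖⟪u l, u m⟫_ℂ‖ ^ 2 ≤ ε)
    (T : H →L[ℂ] H) (s : ℤ × ℤ → ℤ × ℤ) (hs : Injective s) (c : ℤ × ℤ → ℂ) (c0 : ∀ l, c l ≠ 0)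
    (hT : ∀ l, T (u l) = c l • u (s l)) (p0 : 0 < p) (l m : ℤ × ℤ) :
    ‖⟪u (s l), u (s m)⟫_ℂ‖ = ‖⟪u l, u m⟫_ℂ‖ := by
  obtain ⟨b, b1, b2⟩ : ∃ b : ℤ × ℤ → ℝ, (∀ l, b (s l) = ‖c l‖ ^ 2) ∧ ∀ l ∉ Set.range s, b l = 0 :=
    ⟨extend s (fun l => ‖c l‖ ^ 2) 0, hs.extend_apply _ _, fun l h => extend_apply' _ _ _ h⟩
  have d : ∀ l, ‖adjoint T (u (s l)) - starRingEnd ℂ (c l) • u l‖ ^ 2 =
      ‖adjoint T (u (s l))‖ ^ 2 - b (s l) * p := fun l => by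
    rw [@norm_sub_sq ℂ, inner_smul_right, adjoint_inner_left, hT, inner_smul_right, norm_smul,
      ← mul_assoc, RCLike.conj_mul, RCLike.norm_conj, mul_pow, b1, n, ← RCLike.ofReal_pow,
      RCLike.re_ofReal_mul, inner_self_eq_norm_sq, n]
    ring
  have e := fun l => picone (fun l m => ‖⟪u l, u m⟫_ℂ‖ ^ 2) b (fun l => ‖adjoint T (u l)‖ ^ 2) p
    (‖T‖ ^ 2 + 1) (fun _ _ => sq_nonneg _) (fun l m => by rw [norm_inner_symm])
    (fun l => n l ▸ hu (u l)) (fun l => ?_) (fun l => ?_) (fun l => ?_) (s l) (hc _)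
  · have f : ∀ l m, ‖c m‖ * ‖⟪u (s l), u (s m)⟫_ℂ‖ = ‖c l‖ * ‖⟪u l, u m⟫_ℂ‖ := fun l m => by
      have : adjoint T (u (s l)) = starRingEnd ℂ (c l) • u l := sub_eq_zero.1 (norm_eq_zero.1
        (pow_eq_zero_iff two_ne_zero |>.1 (le_antisymm (by linarith [d l, e l]) (sq_nonneg _))))
      rw [← norm_mul, ← inner_smul_right, ← hT, ← adjoint_inner_left, this, inner_smul_left]
      simp
    have := congrArg₂ (· * ·) (f l m) (f m l)
    rw [norm_inner_symm (u (s m)), norm_inner_symm (u m)] at this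
    refine (pow_left_inj₀ (norm_nonneg _) (norm_nonneg _) two_ne_zero).1 (mul_left_cancel₀
      (mul_ne_zero (norm_ne_zero_iff.2 (c0 l)) (norm_ne_zero_iff.2 (c0 m))) ?_)
    linear_combination this
  · by_cases h : l ∈ Set.range s
    · obtain ⟨l, rfl⟩ := h
      have := pow_le_pow_left₀ (norm_nonneg _) (T.le_opNorm (u l)) 2
      rw [hT, norm_smul, mul_pow, mul_pow, n, n] at this
      rw [b1]
      exact (le_of_mul_le_mul_right this p0).trans_lt (lt_add_one _)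
    · rw [b2 l h]
      positivity
  · refine (hs.hasSum_iff fun m h => by rw [b2 m h, zero_mul]).1 ((hu _).congr_fun fun m => ?_)
    simp [adjoint_inner_left, hT, b1, mul_pow, inner_smul_right]
  · by_cases h : l ∈ Set.range s
    · obtain ⟨l, rfl⟩ := h
      exact sub_nonneg.1 (d l ▸ sq_nonneg _)
    · rw [b2 l h, zero_mul]
      positivity

theorem main [Nontrivial H] (f : ℤ × ℤ → H) (hf : IsFrame f) (hr : ¬ IsRieszBasis f)
    (V : ℤ × ℤ → H →ₗᵢ[ℂ] H) (e : ℤ × ℤ → ℤ × ℤ → ℂ) (he : ∀ ν l, ‖e ν l‖ = 1)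
    (hV : ∀ ν l, V ν (f l) = e ν l • f (l + ν))
    (ks : Summable fun l => (nn l : ℝ) ^ 2 * ‖⟪f l, f 0⟫_ℂ‖ ^ 2)
    (s : ℤ × ℤ → ℤ × ℤ) (hs : Injective s) (hΦ : FinitelyManyOrbits s) (c : ℤ × ℤ → ℂ)
    (c0 : ∀ l, c l ≠ 0) : ¬ HasWeightedRepresentation f s c := by
  rintro ⟨T, hT⟩
  obtain ⟨Φ, hΦ⟩ := hΦ
  obtain ⟨R, hu⟩ := exists_parseval f hf
  obtain ⟨u, ud⟩ : ∃ u : ℤ × ℤ → H, ∀ l, u l = R.symm (f l) := ⟨_, fun _ => rfl⟩
  rw [← funext ud] at hu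
  have fu : ∀ l, R (u l) = f l := fun l => by simp [ud]
  have hF : ∀ l m, ‖⟪u l, u m⟫_ℂ‖ = ‖⟪u (l - m), u 0⟫_ℂ‖ := fun l m => by
    simpa using hu.norm_inner_cov
      ((R.symm : H →L[ℂ] H) ∘L (V m).toContinuousLinearMap ∘L (R : H →L[ℂ] H))
      (R.symm.injective.comp ((V m).injective.comp R.injective)) (Equiv.addRight m) (e m) (he m)
      (fun l => by simp [ud, hV]) (l - m) 0
  have hk : ∀ l m, ‖⟪R (u l), R (u m)⟫_ℂ‖ = ‖⟪f (l - m), f 0⟫_ℂ‖ := fun l m => by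
    rw [fu, fu, ← (V m).inner_map_map (f (l - m)), hV, hV, inner_smul_left, inner_smul_right]
    simp [he]
  have n : ∀ l, ‖u l‖ ^ 2 = ‖⟪u 0, u 0⟫_ℂ‖ := fun l => by
    simpa [inner_self_eq_norm_sq_to_K] using hF l l
  obtain ⟨K, K0, hK⟩ := comp u hu R
  obtain ⟨i, j, ij, h⟩ : ∃ i j, i ≠ j ∧ ⟪u i, u j⟫_ℂ ≠ 0 := by
    by_contra! h
    obtain ⟨b, hb⟩ := hu.exists_hilbertBasis (fun i j => (pow_left_inj₀ (norm_nonneg _)
      (norm_nonneg _) two_ne_zero).1 ((n i).trans (n j).symm)) h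
    exact hr ⟨b, R, fun k => by rw [hb, fu]⟩
  have v0 := norm_pos_iff.2 h
  rw [hF] at v0
  have p0 : 0 < ‖⟪u 0, u 0⟫_ℂ‖ := norm_pos_iff.2 fun h => by
    simp [inner_self_eq_zero.1 h] at v0
  have dn : DenseRange (Submodule.span ℂ (Set.range f)).subtypeL := by
    have := Submodule.dense_iff_topologicalClosure_eq_top.2
      (Submodule.topologicalClosure_eq_top_iff.2 hu.dense_span)
    have := (R.surjective.denseRange.dense_image R.continuous this).mono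
      (s₂ := Submodule.span ℂ (Set.range f)) (by
        rw [← funext fu, show (fun l => R (u l)) = (R : H →ₗ[ℂ] H) ∘ u from rfl, Set.range_comp,
          Submodule.span_image]
        rfl)
    simpa [DenseRange] using this
  have hs' := rigid u hu _ n (fun o ε ε0 => by
      obtain ⟨φ, B, f0, f1, f2, f3⟩ := cut _ (fun _ => sq_nonneg _) ks o (ε / K) (by positivity)
      exact ⟨φ, B, f0, f1, fun I => (hK φ _ f2 (by simpa only [hk] using f3) I).trans_eq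
        (mul_div_cancel₀ _ K0.ne')⟩)
    ((R.symm : H →L[ℂ] H) ∘L T.extend (Submodule.subtypeL _) ∘L (R : H →L[ℂ] H)) s hs c c0
    (fun l => by
      have : T.extend (Submodule.subtypeL _) (f l) = _ :=
        (T.extend_eq dn isUniformEmbedding_subtype_val.isUniformInducing ⟨f l, _⟩).trans (hT l)
      simp [ud, this]) p0
  have fin : {l | ‖⟪u (i - j), u 0⟫_ℂ‖ ≤ ‖⟪u l, u 0⟫_ℂ‖}.Finite :=
    (eventually_cofinite.1 ((hu (u 0)).summable.tendsto_cofinite_zero.eventually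
      (gt_mem_nhds (pow_pos v0 2)))).subset fun l hl => not_lt.2 (by
        rw [norm_inner_symm (u 0)]
        exact pow_le_pow_left₀ v0.le hl 2)
  refine growthJ s hs Φ hΦ fin.toFinset (i - j) (sub_ne_zero.2 ij) (by simp) fun l m h => ?_
  rw [Set.Finite.mem_toFinset] at h ⊢
  exact le_of_le_of_eq h ((hF m l).symm.trans ((hs' m l).symm.trans (hF _ _)))

theorem gabor_zero (a b : ℝ) (g : L2) : gabor a b g 0 = g := by
  apply MeasureTheory.Lp.ext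
  filter_upwards [coe_shift ((0 : ℤ × ℤ).1 * b) ((0 : ℤ × ℤ).2 * a) g] with x h
  exact h.trans (by simp)

end Pool.Agent.MP_6c6e33_an.Wt
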